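import Pool.Agent.H41.TP.Pair

/-!
# The abstract patching theorem

`Bas` is a family of subgroups of `Γ` closed under intersection which contains the kernels of all
`s i`, and every member `H` of `Bas` is mapped by some `s j` onto `s j (Γ)`.
-/

set_option autoImplicit false

open Matrix Kronecker

namespace Pool.Agent.H41.TP

variable {F : Type*} [Field F] {Γ : Type*} [Group Γ]

/-- cancellation of `⊗ s` -/
theorem cancel {n n' m : ℕ} (hm : 0 < m) (ρ : Γ →* Matrix (Fin n) (Fin n) F)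
    (ρ' : Γ →* Matrix (Fin n') (Fin n') F) (s : Γ →* Matrix (Fin m) (Fin m) F)
    (H : Subgroup Γ) (hirr : Submodule.span F {X | ∃ h ∈ H, X = s h} = ⊤)
    (hrel : ∀ h ∈ H, (ρ h, ρ' h) ∈ Submodule.span F
      {x : Matrix (Fin n) (Fin n) F × Matrix (Fin n') (Fin n') F |
        ∃ k ∈ H, s k = 1 ∧ x = (ρ k, ρ' k)})
    (hiso : MIso (fun g => ρ g ⊗ₖ s g) (fun g => ρ' g ⊗ₖ s g)) :
    MIso (fun g => ρ g) (fun g => ρ' g) := by
  obtain ⟨T, T', h1, h2, h3⟩ := hiso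
  replace h3 : ∀ g, T * (ρ g ⊗ₖ s g) = (ρ' g ⊗ₖ s g) * T := h3
  have hc : ∀ x ∈ Submodule.span F
      {x : Matrix (Fin n) (Fin n) F × Matrix (Fin n') (Fin n') F |
        ∃ k ∈ H, s k = 1 ∧ x = (ρ k, ρ' k)},
      T * (x.1 ⊗ₖ (1 : Matrix (Fin m) (Fin m) F)) =
        (x.2 ⊗ₖ (1 : Matrix (Fin m) (Fin m) F)) * T := by
    intro x hx
    induction hx using Submodule.span_induction with
    | mem x hx =>
      obtain ⟨k, hk, hk1, rfl⟩ := hx
      have h := h3 k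
      rw [hk1] at h
      exact h
    | zero => simp
    | add x y _ _ hx hy =>
      rw [Prod.fst_add, Prod.snd_add, Matrix.add_kronecker, Matrix.mul_add, hx, hy,
        Matrix.add_kronecker, Matrix.add_mul]
    | smul c x _ hx =>
      rw [Prod.smul_fst, Prod.smul_snd, Matrix.smul_kronecker, Matrix.mul_smul, hx,
        Matrix.smul_kronecker, Matrix.smul_mul]
  have hX : ∀ X ∈ Submodule.span F {X | ∃ h ∈ H, X = s h},
      T * ((1 : Matrix (Fin n) (Fin n) F) ⊗ₖ X) =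
        ((1 : Matrix (Fin n') (Fin n') F) ⊗ₖ X) * T := by
    intro X hX
    induction hX using Submodule.span_induction with
    | mem X hX =>
      obtain ⟨h, hh, rfl⟩ := hX
      have e1 : ((1 : Matrix (Fin n) (Fin n) F) ⊗ₖ s h) =
          (ρ h ⊗ₖ s h) * (ρ h⁻¹ ⊗ₖ (1 : Matrix (Fin m) (Fin m) F)) := by
        rw [← Matrix.mul_kronecker_mul, ← map_mul, mul_inv_cancel, map_one, Matrix.mul_one]
      have e2 : (ρ' h ⊗ₖ s h) * (ρ' h⁻¹ ⊗ₖ (1 : Matrix (Fin m) (Fin m) F)) =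
          ((1 : Matrix (Fin n') (Fin n') F) ⊗ₖ s h) := by
        rw [← Matrix.mul_kronecker_mul, ← map_mul, mul_inv_cancel, map_one, Matrix.mul_one]
      rw [e1, ← Matrix.mul_assoc, h3, Matrix.mul_assoc, hc _ (hrel h⁻¹ (H.inv_mem hh)),
        ← Matrix.mul_assoc, e2]
    | zero => simp
    | add x y _ _ hx hy =>
      rw [Matrix.kronecker_add, Matrix.mul_add, hx, hy, Matrix.kronecker_add, Matrix.add_mul]
    | smul c x _ hx =>
      rw [Matrix.kronecker_smul, Matrix.mul_smul, hx, Matrix.kronecker_smul, Matrix.smul_mul]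
  have hX1 : ∀ X : Matrix (Fin m) (Fin m) F, T * ((1 : Matrix (Fin n) (Fin n) F) ⊗ₖ X) =
        ((1 : Matrix (Fin n') (Fin n') F) ⊗ₖ X) * T := fun X => hX X (by rw [hirr]; trivial)
  have hX2 : ∀ X : Matrix (Fin m) (Fin m) F, T' * ((1 : Matrix (Fin n') (Fin n') F) ⊗ₖ X) =
        ((1 : Matrix (Fin n) (Fin n) F) ⊗ₖ X) * T' := by
    intro X
    calc T' * ((1 : Matrix (Fin n') (Fin n') F) ⊗ₖ X)
        = T' * (((1 : Matrix (Fin n') (Fin n') F) ⊗ₖ X) * (T * T')) := by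
          rw [h1, Matrix.mul_one]
      _ = T' * (((1 : Matrix (Fin n') (Fin n') F) ⊗ₖ X) * T) * T' := by
          simp only [Matrix.mul_assoc]
      _ = (T' * T) * ((1 : Matrix (Fin n) (Fin n) F) ⊗ₖ X) * T' := by
          rw [← hX1]
          simp only [Matrix.mul_assoc]
      _ = ((1 : Matrix (Fin n) (Fin n) F) ⊗ₖ X) * T' := by rw [h2, Matrix.one_mul]
  have hTρ : ∀ g, T * (ρ g ⊗ₖ (1 : Matrix (Fin m) (Fin m) F)) =
      (ρ' g ⊗ₖ (1 : Matrix (Fin m) (Fin m) F)) * T := by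
    intro g
    have e1 : (ρ g ⊗ₖ (1 : Matrix (Fin m) (Fin m) F)) =
        (ρ g ⊗ₖ s g) * ((1 : Matrix (Fin n) (Fin n) F) ⊗ₖ s g⁻¹) := by
      rw [← Matrix.mul_kronecker_mul, ← map_mul, mul_inv_cancel, map_one, Matrix.mul_one]
    have e2 : (ρ' g ⊗ₖ s g) * ((1 : Matrix (Fin n') (Fin n') F) ⊗ₖ s g⁻¹) =
        (ρ' g ⊗ₖ (1 : Matrix (Fin m) (Fin m) F)) := by
      rw [← Matrix.mul_kronecker_mul, ← map_mul, mul_inv_cancel, map_one, Matrix.mul_one]
    rw [e1, ← Matrix.mul_assoc, h3, Matrix.mul_assoc, hX1, ← Matrix.mul_assoc, e2]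
  let q0 : Fin m := ⟨0, hm⟩
  refine ⟨(emb F n' q0)ᵀ * T * emb F n q0, (emb F n q0)ᵀ * T' * emb F n' q0, ?_, ?_, ?_⟩
  · calc (emb F n' q0)ᵀ * T * emb F n q0 * ((emb F n q0)ᵀ * T' * emb F n' q0)
        = (emb F n' q0)ᵀ * (T * (emb F n q0 * (emb F n q0)ᵀ)) * T' * emb F n' q0 := by
          simp only [Matrix.mul_assoc]
      _ = ((emb F n' q0)ᵀ * ((1 : Matrix (Fin n') (Fin n') F) ⊗ₖ Matrix.single q0 q0 (1 : F))) *
            (T * T') * emb F n' q0 := by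
          rw [emb_embT, hX1]
          simp only [Matrix.mul_assoc]
      _ = 1 := by rw [h1, Matrix.mul_one, embT_single, embT_emb]
  · calc (emb F n q0)ᵀ * T' * emb F n' q0 * ((emb F n' q0)ᵀ * T * emb F n q0)
        = (emb F n q0)ᵀ * (T' * (emb F n' q0 * (emb F n' q0)ᵀ)) * T * emb F n q0 := by
          simp only [Matrix.mul_assoc]
      _ = ((emb F n q0)ᵀ * ((1 : Matrix (Fin n) (Fin n) F) ⊗ₖ Matrix.single q0 q0 (1 : F))) *
            (T' * T) * emb F n q0 := by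
          rw [emb_embT, hX2]
          simp only [Matrix.mul_assoc]
      _ = 1 := by rw [h2, Matrix.mul_one, embT_single, embT_emb]
  · intro g
    calc (emb F n' q0)ᵀ * T * emb F n q0 * ρ g
        = (emb F n' q0)ᵀ * (T * (ρ g ⊗ₖ (1 : Matrix (Fin m) (Fin m) F))) * emb F n q0 := by
          rw [Matrix.mul_assoc, emb_mul]
          simp only [Matrix.mul_assoc]
      _ = (emb F n' q0)ᵀ * (ρ' g ⊗ₖ (1 : Matrix (Fin m) (Fin m) F)) * T * emb F n q0 := by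
          rw [hTρ]
          simp only [Matrix.mul_assoc]
      _ = ρ' g * ((emb F n' q0)ᵀ * T * emb F n q0) := by
          rw [← embT_mul]
          simp only [Matrix.mul_assoc]

omit [Group Γ] in
/-- relations transfer along isomorphisms -/
theorem span_transfer {N n m : ℕ} (p : Fin m) (R : Γ → Matrix (Fin N) (Fin N) F)
    (ρ : Γ → Matrix (Fin n) (Fin n) F) (s : Γ → Matrix (Fin m) (Fin m) F)
    (h : MIso R (fun g => ρ g ⊗ₖ s g)) :
    ∃ L : Matrix (Fin N) (Fin N) F →ₗ[F] Matrix (Fin n) (Fin n) F,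
      ∀ g, s g = 1 → L (R g) = ρ g := by
  obtain ⟨T, T', h1, h2, h3⟩ := h
  replace h3 : ∀ g, T * R g = (ρ g ⊗ₖ s g) * T := h3
  let f : Fin n → Fin n × Fin m := fun i => (i, p)
  refine ⟨{ toFun := fun X => (T * X * T').submatrix f f
            map_add' := ?_
            map_smul' := ?_ }, ?_⟩
  · intro X Y
    rw [Matrix.mul_add, Matrix.add_mul]
    rfl
  · intro c X
    rw [Matrix.mul_smul, Matrix.smul_mul]
    rfl
  · intro g hg
    change (T * R g * T').submatrix f f = ρ g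
    rw [h3, hg, Matrix.mul_assoc, h1, Matrix.mul_one]
    ext i j
    simp [f, Matrix.kroneckerMap_apply]

/-- A member of a family of subgroups closed under intersection on which a finite dimensional span
is stable. -/
theorem exists_stable {A : Type*} [AddCommGroup A] [Module F A] [FiniteDimensional F A]
    (R : Γ → A) (Bas : Subgroup Γ → Prop) (hinf : ∀ H K, Bas H → Bas K → Bas (H ⊓ K))
    (H0 : Subgroup Γ) (hH0 : Bas H0) :
    ∃ H, Bas H ∧ H ≤ H0 ∧ ∀ K, Bas K → ∀ h ∈ H,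
      R h ∈ Submodule.span F {x | ∃ k ∈ H, k ∈ K ∧ x = R k} := by
  classical
  let S : Subgroup Γ → Submodule F A := fun H => Submodule.span F {x | ∃ k ∈ H, x = R k}
  let P : ℕ → Prop := fun d => ∃ H, Bas H ∧ H ≤ H0 ∧ Module.finrank F (S H) = d
  have hP : ∃ d, P d := ⟨_, H0, hH0, le_rfl, rfl⟩
  obtain ⟨H, hH, hH1, hd⟩ := Nat.find_spec hP
  refine ⟨H, hH, hH1, fun K hK h hh => ?_⟩
  have hle : S (H ⊓ K) ≤ S H := by
    apply Submodule.span_mono
    rintro x ⟨k, hk, rfl⟩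
    exact ⟨k, hk.1, rfl⟩
  have hmin : Module.finrank F (S H) ≤ Module.finrank F (S (H ⊓ K)) := by
    rw [hd]
    exact Nat.find_min' hP ⟨H ⊓ K, hinf H K hH hK, inf_le_left.trans hH1, rfl⟩
  have heq : S (H ⊓ K) = S H := Submodule.eq_of_le_of_finrank_le hle hmin
  have h1 : R h ∈ S H := Submodule.subset_span ⟨h, hh, rfl⟩
  rw [← heq] at h1
  refine Submodule.span_mono ?_ h1
  rintro x ⟨k, hk, rfl⟩
  exact ⟨k, hk.1, hk.2, rfl⟩

section Main

variable {ι : Type*} (N m : ι → ℕ) (R : ∀ i, Γ →* Matrix (Fin (N i)) (Fin (N i)) F)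
  (s : ∀ i, Γ →* Matrix (Fin (m i)) (Fin (m i)) F)

/-- comparison of two solutions -/
theorem compare (hm : ∀ i, 0 < m i) (H : Subgroup Γ) (i0 j1 : ι)
    (hH : ∀ h ∈ H, s i0 h = 1)
    (hst : ∀ h ∈ H, R i0 h ∈ Submodule.span F {x | ∃ k ∈ H, s j1 k = 1 ∧ x = R i0 k})
    (hirr : Submodule.span F {X | ∃ h ∈ H, X = s j1 h} = ⊤) {n n' : ℕ}
    (ρ : Γ →* Matrix (Fin n) (Fin n) F) (ρ' : Γ →* Matrix (Fin n') (Fin n') F)
    (h0 : MIso (fun g => R i0 g) (fun g => ρ g ⊗ₖ s i0 g))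
    (h0' : MIso (fun g => R i0 g) (fun g => ρ' g ⊗ₖ s i0 g))
    (h1 : MIso (fun g => R j1 g) (fun g => ρ g ⊗ₖ s j1 g))
    (h1' : MIso (fun g => R j1 g) (fun g => ρ' g ⊗ₖ s j1 g)) :
    MIso (fun g => ρ g) (fun g => ρ' g) := by
  obtain ⟨L, hL⟩ := span_transfer ⟨0, hm i0⟩ (fun g => R i0 g) (fun g => ρ g) (fun g => s i0 g) h0
  obtain ⟨L', hL'⟩ := span_transfer ⟨0, hm i0⟩ (fun g => R i0 g) (fun g => ρ' g)
    (fun g => s i0 g) h0'
  refine cancel (hm j1) ρ ρ' (s j1) H hirr ?_ (h1.symm.trans h1')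
  intro h hh
  have e1 : (ρ h, ρ' h) = (L.prod L') (R i0 h) := by
    rw [LinearMap.prod_apply]
    change _ = (L (R i0 h), L' (R i0 h))
    rw [hL h (hH h hh), hL' h (hH h hh)]
  rw [e1]
  have e2 := Submodule.mem_map_of_mem (f := L.prod L') (hst h hh)
  rw [Submodule.map_span] at e2
  refine Submodule.span_mono ?_ e2
  rintro x ⟨y, ⟨k, hk, hk1, rfl⟩, rfl⟩
  refine ⟨k, hk, hk1, ?_⟩
  rw [LinearMap.prod_apply]
  change (L (R i0 k), L' (R i0 k)) = _
  rw [hL k (hH k hk), hL' k (hH k hk)]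

/-- three indices at a time -/
theorem three (hm : ∀ i, 0 < m i)
    (gen : ∀ S : Finset ι, ∃ j, Submodule.span F {X | ∃ g, (∀ i ∈ S, s i g = 1) ∧ X = s j g} = ⊤)
    (compat : ∀ i j, MIso (fun g => R i g ⊗ₖ s j g) (fun g => R j g ⊗ₖ s i g))
    (Bas : Subgroup Γ → Prop) (hB : Bas = fun H => ∃ S : Finset ι, ∀ g, g ∈ H ↔ ∀ i ∈ S, s i g = 1)
    (hinf : ∀ H K, Bas H → Bas K → Bas (H ⊓ K)) (hker : ∀ i, Bas (s i).ker) (f : Fin 3 → ι) :
    ∃ (n : ℕ) (ρ : Γ →* Matrix (Fin n) (Fin n) F),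
      ∀ a, MIso (fun g => R (f a) g) (fun g => ρ g ⊗ₖ s (f a) g) := by
  obtain ⟨H, hH, hH1, hst⟩ := exists_stable (F := F)
    (A := ∀ a : Fin 3, Matrix (Fin (N (f a))) (Fin (N (f a))) F)
    (fun g => fun a => R (f a) g) Bas hinf ((s (f 0)).ker ⊓ (s (f 1)).ker ⊓ (s (f 2)).ker)
    (hinf _ _ (hinf _ _ (hker _) (hker _)) (hker _))
  have hH2 := hH
  rw [hB] at hH2
  obtain ⟨S, hS⟩ := hH2
  obtain ⟨j, hj⟩ := gen S
  obtain ⟨n, ρ, -, h⟩ := pair_exists (fun a => N (f a)) (fun a => m (f a)) (fun a => R (f a))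
    (fun a => s (f a)) (R j) (s j) H 0 (fun a => hm (f a)) (hm j) (by
      intro a h hh
      have h3 := hH1 hh
      fin_cases a
      · exact h3.1.1
      · exact h3.1.2
      · exact h3.2) (fun a => compat (f a) j) (by
      intro h hh
      have h3 := hst _ (hker j) h hh
      refine Submodule.span_mono ?_ h3
      rintro x ⟨k, hk, hk1, rfl⟩
      exact ⟨k, hk, hk1, rfl⟩) (by
      rw [← hj]
      congr 1
      ext X
      constructor
      · rintro ⟨h, hh, rfl⟩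
        exact ⟨h, (hS h).1 hh, rfl⟩
      · rintro ⟨h, hh, rfl⟩
        exact ⟨h, (hS h).2 hh, rfl⟩)
  exact ⟨n, ρ, h⟩

/-- **The abstract patching theorem.** -/
theorem patch_abs (hm : ∀ i, 0 < m i)
    (gen : ∀ S : Finset ι, ∃ j, Submodule.span F {X | ∃ g, (∀ i ∈ S, s i g = 1) ∧ X = s j g} = ⊤)
    (compat : ∀ i j, MIso (fun g => R i g ⊗ₖ s j g) (fun g => R j g ⊗ₖ s i g)) :
    ∃ (n : ℕ) (ρ : Γ →* Matrix (Fin n) (Fin n) F),
      (∀ i, MIso (fun g => R i g) (fun g => ρ g ⊗ₖ s i g)) ∧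
      ∀ (n' : ℕ) (ρ' : Γ →* Matrix (Fin n') (Fin n') F),
        (∀ i, MIso (fun g => R i g) (fun g => ρ' g ⊗ₖ s i g)) →
        MIso (fun g => ρ' g) (fun g => ρ g) := by
  classical
  let Bas : Subgroup Γ → Prop := fun H => ∃ S : Finset ι, ∀ g, g ∈ H ↔ ∀ i ∈ S, s i g = 1
  have hinf : ∀ H K, Bas H → Bas K → Bas (H ⊓ K) := by
    rintro H K ⟨S, hS⟩ ⟨T, hT⟩
    refine ⟨S ∪ T, fun g => ?_⟩
    rw [Subgroup.mem_inf, hS, hT]
    constructor
    · rintro ⟨h1, h2⟩ i hi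
      rcases Finset.mem_union.1 hi with h | h
      · exact h1 i h
      · exact h2 i h
    · intro h
      exact ⟨fun i hi => h i (Finset.mem_union_left _ hi),
        fun i hi => h i (Finset.mem_union_right _ hi)⟩
  have hker : ∀ i, Bas (s i).ker := by
    intro i
    refine ⟨{i}, fun g => ?_⟩
    rw [MonoidHom.mem_ker]
    simp
  obtain ⟨i0, -⟩ := gen ∅
  obtain ⟨H, hH, hH1, hst⟩ := exists_stable (F := F) (fun g => R i0 g) Bas hinf (s i0).ker (hker i0)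
  obtain ⟨S, hS⟩ := id hH
  obtain ⟨j1, hj1⟩ := gen S
  have hirr : Submodule.span F {X | ∃ h ∈ H, X = s j1 h} = ⊤ := by
    rw [← hj1]
    congr 1
    ext X
    constructor
    · rintro ⟨h, hh, rfl⟩
      exact ⟨h, (hS h).1 hh, rfl⟩
    · rintro ⟨h, hh, rfl⟩
      exact ⟨h, (hS h).2 hh, rfl⟩
  have hst1 : ∀ h ∈ H, R i0 h ∈ Submodule.span F {x | ∃ k ∈ H, s j1 k = 1 ∧ x = R i0 k} :=
    fun h hh => hst _ (hker j1) h hh
  have hcmp := fun {n n' : ℕ} (ρ : Γ →* Matrix (Fin n) (Fin n) F)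
    (ρ' : Γ →* Matrix (Fin n') (Fin n') F) => compare N m R s hm H i0 j1 (fun h hh => hH1 hh) hst1
      hirr ρ ρ'
  obtain ⟨n, ρ, hρ⟩ := three N m R s hm gen compat Bas rfl hinf hker ![i0, j1, j1]
  have hρ0 : MIso (fun g => R i0 g) (fun g => ρ g ⊗ₖ s i0 g) := hρ 0
  have hρ1 : MIso (fun g => R j1 g) (fun g => ρ g ⊗ₖ s j1 g) := hρ 1
  refine ⟨n, ρ, fun i => ?_, fun n' ρ' hρ' => ?_⟩
  · obtain ⟨n', ρ', hρ'⟩ := three N m R s hm gen compat Bas rfl hinf hker ![i0, j1, i]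
    have h0 : MIso (fun g => R i0 g) (fun g => ρ' g ⊗ₖ s i0 g) := hρ' 0
    have h1 : MIso (fun g => R j1 g) (fun g => ρ' g ⊗ₖ s j1 g) := hρ' 1
    have h2 : MIso (fun g => R i g) (fun g => ρ' g ⊗ₖ s i g) := hρ' 2
    exact h2.trans ((hcmp ρ' ρ h0 hρ0 h1 hρ1).kron (fun g => s i g))
  · exact hcmp ρ' ρ (hρ' i0) hρ0 (hρ' j1) hρ1

end Main

end Pool.Agent.H41.TP
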