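import Pool.Agent.H71.Patch.Defs

/-!
# Definitions for the tensor patching theorem (MP_976e2b_nt)

`GalK K`, `Zbar K`, `Above v Q`, `Irred ρ` are those of `Pool.Agent.H71.Patch.Defs`: the absolute Galois
group of `K`, the ring of all algebraic integers, `Q` is a prime of it above `v`, and `ρ` is
irreducible.
-/

open scoped Pointwise NumberField
open Matrix IsDedekindDomain Kronecker Pool.Agent.H71.Patch

namespace Pool.Agent.H41.TP

/-- The matrix valued functions `a` and `b` on `Γ` (in practice: representations and their tensor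
products) are isomorphic: `T (a g) T⁻¹ = b g` for an invertible matrix `T`. -/
def MIso {F : Type*} [Field F] {Γ I J : Type*} [Fintype I] [Fintype J] [DecidableEq I]
    [DecidableEq J] (a : Γ → Matrix I I F) (b : Γ → Matrix J J F) : Prop :=
  ∃ (T : Matrix J I F) (T' : Matrix I J F), T * T' = 1 ∧ T' * T = 1 ∧ ∀ g, T * a g = b g * T

/-- The restriction of `ρ` to the subgroup `D` is a direct summand of the restriction of `R`. -/
def SummandOn {F : Type*} [Field F] {Γ : Type*} [Group Γ] {n N : ℕ} (D : Subgroup Γ)
    (ρ : Γ →* GL (Fin n) F) (R : Γ →* GL (Fin N) F) : Prop :=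
  ∃ (B : Matrix (Fin N) (Fin n) F) (C : Matrix (Fin n) (Fin N) F), C * B = 1 ∧
    ∀ g ∈ D, (R g).val * B = B * (ρ g).val ∧ C * (R g).val = (ρ g).val * C

/-- `ρ` is unramified at the prime `v` of `K`: it is trivial on the inertia groups of all primes of
`Zbar K` above `v`. -/
def Unram {K : Type*} [Field K] [NumberField K] {F : Type*} [Field F] {n : ℕ}
    (ρ : GalK K →* GL (Fin n) F) (v : HeightOneSpectrum (𝓞 K)) : Prop :=
  ∀ Q, Above v Q → ∀ g ∈ Q.inertia (GalK K), ρ g = 1

end Pool.Agent.H41.TP
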