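import Pool.Agent.H41.TP.Abs

/-!
# The tensor patching theorem for Galois representations
-/

set_option autoImplicit false

open scoped Pointwise NumberField
open Matrix IsDedekindDomain Kronecker Pool.Agent.H71.Patch

namespace Pool.Agent.H41.TP

section Group

variable {Γ : Type*} [Group Γ] {F : Type*} [Field F]

theorem MIso.card_eq {I J : Type*} [Fintype I] [Fintype J] [DecidableEq I] [DecidableEq J]
    {a : Γ → Matrix I I F} {b : Γ → Matrix J J F} (h : MIso a b) :
    Fintype.card I = Fintype.card J := by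
  obtain ⟨T, T', h1, h2, -⟩ := h
  exact (Matrix.square_of_invertible T' T h2 h1)

theorem MIso.trace_eq {I J : Type*} [Fintype I] [Fintype J] [DecidableEq I] [DecidableEq J]
    {a : Γ → Matrix I I F} {b : Γ → Matrix J J F} (h : MIso a b) (g : Γ) :
    (a g).trace = (b g).trace := by
  obtain ⟨T, T', h1, h2, h3⟩ := h
  calc (a g).trace = (T' * T * a g).trace := by rw [h2, Matrix.one_mul]
    _ = (T' * (b g * T)).trace := by rw [Matrix.mul_assoc, h3]
    _ = (b g * T * T').trace := by rw [Matrix.trace_mul_comm]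
    _ = (b g).trace := by rw [Matrix.mul_assoc, h1, Matrix.mul_one]

theorem charpoly_two_of_trace (h2 : (2 : F) ≠ 0) (A : Matrix (Fin 2) (Fin 2) F) (a d : F)
    (hA : A.trace = a) (hA2 : (A ^ 2).trace = a ^ 2 - 2 * d) :
    A.charpoly = Polynomial.X ^ 2 - Polynomial.C a * Polynomial.X + Polynomial.C d := by
  have hd : A.det = d := by
    have e : (A ^ 2).trace = A.trace ^ 2 - 2 * A.det := by
      rw [pow_two, Matrix.trace_fin_two, Matrix.trace_fin_two, Matrix.det_fin_two, Matrix.mul_apply,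
        Matrix.mul_apply, Fin.sum_univ_two, Fin.sum_univ_two]
      ring
    rw [hA2, hA] at e
    have e2 : 2 * (A.det - d) = 0 := by linear_combination e
    rcases mul_eq_zero.1 e2 with h | h
    · exact absurd h h2
    · exact sub_eq_zero.1 h
  have h := Matrix.charpoly_fin_two A
  rw [h, hA, hd]

variable {N n m : ℕ} (R : Γ →* GL (Fin N) F) (ρ : Γ →* GL (Fin n) F) (s : Γ →* GL (Fin m) F)

theorem summand_of_iso (p : Fin m) (h : MIso (fun g => (R g).val) (fun g => (ρ g).val ⊗ₖ (s g).val))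
    (D : Subgroup Γ) (hD : ∀ g ∈ D, s g = 1) : SummandOn D ρ R := by
  obtain ⟨T, T', h1, h2, h3⟩ := h
  replace h3 : ∀ g, T * (R g).val = ((ρ g).val ⊗ₖ (s g).val) * T := h3
  have h4 : ∀ g ∈ D, T * (R g).val = ((ρ g).val ⊗ₖ (1 : Matrix (Fin m) (Fin m) F)) * T := by
    intro g hg
    rw [h3, hD g hg, Units.val_one]
  refine ⟨T' * emb F n p, (emb F n p)ᵀ * T, ?_, fun g hg => ⟨?_, ?_⟩⟩
  · calc (emb F n p)ᵀ * T * (T' * emb F n p) = (emb F n p)ᵀ * (T * T') * emb F n p := by
          simp only [Matrix.mul_assoc]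
      _ = 1 := by rw [h1, Matrix.mul_one, embT_emb]
  · calc (R g).val * (T' * emb F n p) = T' * (T * (R g).val) * T' * emb F n p := by
          rw [← Matrix.mul_assoc T', h2, Matrix.one_mul, Matrix.mul_assoc]
      _ = T' * ((ρ g).val ⊗ₖ (1 : Matrix (Fin m) (Fin m) F)) * (T * T') * emb F n p := by
          rw [h4 g hg]
          simp only [Matrix.mul_assoc]
      _ = T' * (((ρ g).val ⊗ₖ (1 : Matrix (Fin m) (Fin m) F)) * emb F n p) := by
          rw [h1, Matrix.mul_one, Matrix.mul_assoc]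
      _ = T' * emb F n p * (ρ g).val := by
          rw [← emb_mul, Matrix.mul_assoc]
  · calc (emb F n p)ᵀ * T * (R g).val
        = (emb F n p)ᵀ * ((ρ g).val ⊗ₖ (1 : Matrix (Fin m) (Fin m) F)) * T := by
          rw [Matrix.mul_assoc, h4 g hg, Matrix.mul_assoc]
      _ = (ρ g).val * ((emb F n p)ᵀ * T) := by
          rw [← embT_mul, Matrix.mul_assoc]

theorem eq_one_of_iso (p : Fin m) (h : MIso (fun g => (R g).val) (fun g => (ρ g).val ⊗ₖ (s g).val))
    (g : Γ) (hR : R g = 1) (hs : s g = 1) : ρ g = 1 := by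
  obtain ⟨T, T', h1, h2, h3⟩ := h
  replace h3 : T * (R g).val = ((ρ g).val ⊗ₖ (s g).val) * T := h3 g
  rw [hR, hs, Units.val_one, Units.val_one, Matrix.mul_one] at h3
  have h4 : (ρ g).val ⊗ₖ (1 : Matrix (Fin m) (Fin m) F) =
      (1 : Matrix (Fin n) (Fin n) F) ⊗ₖ (1 : Matrix (Fin m) (Fin m) F) := by
    calc (ρ g).val ⊗ₖ (1 : Matrix (Fin m) (Fin m) F)
        = ((ρ g).val ⊗ₖ (1 : Matrix (Fin m) (Fin m) F)) * T * T' := by
          rw [Matrix.mul_assoc, h1, Matrix.mul_one]
      _ = _ := by rw [← h3, h1, Matrix.one_kronecker_one]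
  exact Units.ext (kron_one_inj p h4)

theorem irred_of_iso (p : Fin m) (h : MIso (fun g => (R g).val) (fun g => (ρ g).val ⊗ₖ (s g).val))
    (hR : Irred R) : Irred ρ := by
  have hcard := h.card_eq
  obtain ⟨T, T', h1, h2, h3⟩ := h
  replace h3 : ∀ g, T * (R g).val = ((ρ g).val ⊗ₖ (s g).val) * T := h3
  rw [Fintype.card_prod, Fintype.card_fin, Fintype.card_fin, Fintype.card_fin] at hcard
  refine ⟨fun hn => hR.1 (by rw [hcard, hn, zero_mul]), fun W hW => ?_⟩
  -- the slices of a vector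
  let sl : Fin m → (Fin n × Fin m → F) →ₗ[F] (Fin n → F) := fun q => LinearMap.funLeft F F
    (fun a => (a, q))
  let V : Submodule F (Fin N → F) := ⨅ q, W.comap ((sl q).comp (Matrix.mulVecLin T))
  have hV : ∀ x, x ∈ V ↔ ∀ q, (fun a => (T *ᵥ x) (a, q)) ∈ W := by
    intro x
    rw [Submodule.mem_iInf]
    rfl
  have hinv : ∀ g : Γ, ∀ x ∈ V, (R g : Matrix (Fin N) (Fin N) F) *ᵥ x ∈ V := by
    intro g x hx
    rw [hV] at hx ⊢
    intro q
    have e1 : (fun a => (T *ᵥ ((R g : Matrix (Fin N) (Fin N) F) *ᵥ x)) (a, q)) =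
        ∑ r, (s g).val q r • ((ρ g).val *ᵥ (fun a => (T *ᵥ x) (a, r))) := by
      funext a
      rw [Matrix.mulVec_mulVec]
      have e2 : T * (R g : Matrix (Fin N) (Fin N) F) = ((ρ g).val ⊗ₖ (s g).val) * T := h3 g
      rw [e2, ← Matrix.mulVec_mulVec, Finset.sum_apply]
      simp only [Pi.smul_apply, Matrix.mulVec, dotProduct, smul_eq_mul, Fintype.sum_prod_type,
        Matrix.kroneckerMap_apply]
      rw [Finset.sum_comm]
      apply Finset.sum_congr rfl
      intro r _
      rw [Finset.mul_sum]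
      apply Finset.sum_congr rfl
      intro b _
      ring
    rw [e1]
    exact Submodule.sum_mem _ fun r _ => W.smul_mem _ (hW g _ (hx r))
  have hTT : ∀ y : Fin n × Fin m → F, T *ᵥ (T' *ᵥ y) = y := by
    intro y
    rw [Matrix.mulVec_mulVec, h1, Matrix.one_mulVec]
  have hy : ∀ w : Fin n → F, (∀ q, (fun a => (fun x : Fin n × Fin m => if x.2 = p then w x.1
      else 0) (a, q)) = if q = p then w else 0) := by
    intro w q
    funext a
    by_cases hq : q = p
    · simp [hq]
    · simp [hq]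
  rcases hR.2 V hinv with h0 | h0
  · left
    rw [eq_bot_iff]
    intro w hw
    have h5 : T' *ᵥ (fun x : Fin n × Fin m => if x.2 = p then w x.1 else 0) ∈ V := by
      rw [hV]
      intro q
      rw [hTT, hy]
      split_ifs
      · exact hw
      · exact W.zero_mem
    rw [h0, Submodule.mem_bot] at h5
    have h6 := hTT (fun x : Fin n × Fin m => if x.2 = p then w x.1 else 0)
    rw [h5, Matrix.mulVec_zero] at h6
    rw [Submodule.mem_bot]
    funext a
    have h7 := congrFun h6 (a, p)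
    simp only [Pi.zero_apply, if_true] at h7
    rw [Pi.zero_apply]
    exact h7.symm
  · right
    rw [eq_top_iff]
    intro w _
    have h5 : T' *ᵥ (fun x : Fin n × Fin m => if x.2 = p then w x.1 else 0) ∈ V := by
      rw [h0]
      trivial
    rw [hV] at h5
    have h6 := h5 p
    rw [hTT, hy, if_pos rfl] at h6
    exact h6

end Group

section Top

variable {Γ : Type*} [Group Γ] [TopologicalSpace Γ] [IsTopologicalGroup Γ] {F : Type*} [Field F]
  [TopologicalSpace F] [IsTopologicalRing F]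

theorem continuous_of_iso {N n m : ℕ} (p : Fin m) (R : Γ →* GL (Fin N) F) (ρ : Γ →* GL (Fin n) F)
    (s : Γ →* GL (Fin m) F) (hR : Continuous R) (hs : Continuous s)
    (h : MIso (fun g => (R g).val) (fun g => (ρ g).val ⊗ₖ (s g).val)) : Continuous ρ := by
  obtain ⟨T, T', h1, h2, h3⟩ := h
  replace h3 : ∀ g, T * (R g).val = ((ρ g).val ⊗ₖ (s g).val) * T := h3
  have hval : Continuous fun g => (ρ g).val := by
    have e : ∀ g, (ρ g).val ⊗ₖ (1 : Matrix (Fin m) (Fin m) F) =
        T * (R g).val * T' * ((1 : Matrix (Fin n) (Fin n) F) ⊗ₖ (s g⁻¹).val) := by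
      intro g
      rw [h3, Matrix.mul_assoc _ T, h1, Matrix.mul_one, ← Matrix.mul_kronecker_mul, Matrix.mul_one,
        ← Units.val_mul, ← map_mul, mul_inv_cancel, map_one, Units.val_one]
    have hc : Continuous fun g => T * (R g).val * T' *
        ((1 : Matrix (Fin n) (Fin n) F) ⊗ₖ (s g⁻¹).val) := by
      have c1 : Continuous fun g => (R g).val := Units.continuous_val.comp hR
      have c2 : Continuous fun g => (s g⁻¹).val :=
        Units.continuous_val.comp (hs.comp continuous_inv)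
      have c3 : Continuous fun g => ((1 : Matrix (Fin n) (Fin n) F) ⊗ₖ (s g⁻¹).val) := by
        refine continuous_matrix fun i j => ?_
        exact continuous_const.mul (c2.matrix_elem i.2 j.2)
      exact ((continuous_const.matrix_mul c1).matrix_mul continuous_const).matrix_mul c3
    refine continuous_matrix fun i j => ?_
    have e2 : ∀ g, (ρ g).val i j = (T * (R g).val * T' *
        ((1 : Matrix (Fin n) (Fin n) F) ⊗ₖ (s g⁻¹).val)) (i, p) (j, p) := by
      intro g
      rw [← e, Matrix.kroneckerMap_apply, Matrix.one_apply_eq, mul_one]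
    simp only [e2]
    exact hc.matrix_elem (i, p) (j, p)
  rw [Units.continuous_iff]
  refine ⟨hval, ?_⟩
  have e : (fun g => ((ρ g)⁻¹).val) = fun g => (ρ g⁻¹).val := by
    funext g
    rw [map_inv]
  rw [e]
  exact hval.comp continuous_inv

end Top

section Main

variable {K : Type*} [Field K] [NumberField K] {F : Type*} [Field F] [TopologicalSpace F]
  [IsTopologicalRing F]

/-- The tensor patching theorem, with all properties. -/
theorem tensor_patch {ι : Type*} (m N : ι → ℕ) (hm : ∀ i, 0 < m i)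
    (s : ∀ i, GalK K →* GL (Fin (m i)) F) (R : ∀ i, GalK K →* GL (Fin (N i)) F)
    (hs : ∀ i, Continuous (s i)) (hR : ∀ i, Continuous (R i))
    (gen : ∀ S : Finset ι, ∃ j, Submodule.span F
      {X : Matrix (Fin (m j)) (Fin (m j)) F | ∃ g, (∀ i ∈ S, s i g = 1) ∧ X = (s j g).val} = ⊤)
    (compat : ∀ i j, MIso (fun g => (R i g).val ⊗ₖ (s j g).val)
      (fun g => (R j g).val ⊗ₖ (s i g).val)) :
    ∃ (n : ℕ) (ρ : GalK K →* GL (Fin n) F), Continuous ρ ∧ (∀ i, N i = n * m i) ∧
      (∀ i, MIso (fun g => (R i g).val) (fun g => (ρ g).val ⊗ₖ (s i g).val)) ∧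
      (∀ (n' : ℕ) (ρ' : GalK K →* GL (Fin n') F),
        (∀ i, MIso (fun g => (R i g).val) (fun g => (ρ' g).val ⊗ₖ (s i g).val)) →
        MIso (fun g => (ρ' g).val) (fun g => (ρ g).val)) ∧
      (∀ i, Irred (R i) → Irred ρ) ∧
      (∀ (v : HeightOneSpectrum (𝓞 K)) (i : ι), Unram (R i) v → Unram (s i) v → Unram ρ v) ∧
      (∀ (i : ι) (D : Subgroup (GalK K)), (∀ g ∈ D, s i g = 1) → SummandOn D ρ (R i)) ∧
      (n = 2 → (2 : F) ≠ 0 → ∀ (g : GalK K) (a d : F) (i j : ι),
        (s i g).val.trace ≠ 0 → (R i g).val.trace = a * (s i g).val.trace →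
        (s j (g ^ 2)).val.trace ≠ 0 →
        (R j (g ^ 2)).val.trace = (a ^ 2 - 2 * d) * (s j (g ^ 2)).val.trace →
        (ρ g).val.charpoly = Polynomial.X ^ 2 - Polynomial.C a * Polynomial.X + Polynomial.C d) := by
  have gen' : ∀ S : Finset ι, ∃ j, Submodule.span F
      {X : Matrix (Fin (m j)) (Fin (m j)) F | ∃ g, (∀ i ∈ S, (Units.coeHom _).comp (s i) g = 1) ∧
        X = (Units.coeHom _).comp (s j) g} = ⊤ := by
    intro S
    obtain ⟨j, hj⟩ := gen S
    refine ⟨j, ?_⟩
    rw [← hj]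
    congr 1
    ext X
    constructor
    · rintro ⟨g, hg, rfl⟩
      exact ⟨g, fun i hi => Units.ext (hg i hi), rfl⟩
    · rintro ⟨g, hg, rfl⟩
      refine ⟨g, fun i hi => ?_, rfl⟩
      change (s i g).val = 1
      rw [hg i hi, Units.val_one]
  obtain ⟨n, ρ0, hρ0, huniq⟩ := patch_abs N m (fun i => (Units.coeHom _).comp (R i))
    (fun i => (Units.coeHom _).comp (s i)) hm gen' compat
  have hiso : ∀ i, MIso (fun g => (R i g).val)
      (fun g => (ρ0.toHomUnits g).val ⊗ₖ (s i g).val) := hρ0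
  obtain ⟨i0, -⟩ := gen ∅
  refine ⟨n, ρ0.toHomUnits, ?_, ?_, hiso, ?_, ?_, ?_, ?_, ?_⟩
  · exact continuous_of_iso ⟨0, hm i0⟩ (R i0) _ (s i0) (hR i0) (hs i0) (hiso i0)
  · intro i
    have h := (hiso i).card_eq
    rwa [Fintype.card_prod, Fintype.card_fin, Fintype.card_fin, Fintype.card_fin] at h
  · intro n' ρ' h'
    exact huniq n' ((Units.coeHom _).comp ρ') h'
  · intro i hi
    exact irred_of_iso (R i) _ (s i) ⟨0, hm i⟩ (hiso i) hi
  · intro v i h1 h2 Q hQ g hg
    exact eq_one_of_iso (R i) _ (s i) ⟨0, hm i⟩ (hiso i) g (h1 Q hQ g hg) (h2 Q hQ g hg)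
  · intro i D hD
    exact summand_of_iso (R i) _ (s i) ⟨0, hm i⟩ (hiso i) D hD
  · intro hn h2 g a d i j hi1 hi2 hj1 hj2
    subst hn
    have htr : ∀ (k : ι) (x : GalK K), (R k x).val.trace =
        ((ρ0.toHomUnits x).val).trace * (s k x).val.trace := by
      intro k x
      rw [(hiso k).trace_eq x, Matrix.trace_kronecker]
    apply charpoly_two_of_trace h2
    · have h := htr i g
      rw [hi2] at h
      exact (mul_right_cancel₀ hi1 h).symm
    · have h := htr j (g ^ 2)
      rw [hj2] at h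
      rw [← Units.val_pow_eq_pow_val, ← map_pow]
      exact (mul_right_cancel₀ hj1 h).symm

end Main

end Pool.Agent.H41.TP
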