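import Pool.Agent.H41.TP.Defs

/-!
# Kronecker products and isomorphisms of matrix representations
-/

set_option autoImplicit false

open Matrix Kronecker

namespace Pool.Agent.H41.TP

variable (F : Type*) [Field F]

/-- the matrix of `x ↦ x ⊗ e_p` -/
def emb (a : ℕ) {m : ℕ} (p : Fin m) : Matrix (Fin a × Fin m) (Fin a) F :=
  Matrix.of fun x y => (1 : Matrix (Fin a) (Fin a) F) x.1 y * (if x.2 = p then 1 else 0)

theorem emb_apply {a m : ℕ} (p : Fin m) (x : Fin a × Fin m) (y : Fin a) :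
    emb F a p x y = (1 : Matrix (Fin a) (Fin a) F) x.1 y * (if x.2 = p then 1 else 0) := rfl

theorem emb_mul {a m : ℕ} (p : Fin m) (A : Matrix (Fin a) (Fin a) F) :
    emb F a p * A = (A ⊗ₖ (1 : Matrix (Fin m) (Fin m) F)) * emb F a p := by
  ext x y
  rw [Matrix.mul_apply, Matrix.mul_apply, Fintype.sum_prod_type]
  obtain ⟨x, q⟩ := x
  simp only [emb_apply, Matrix.kroneckerMap_apply, Matrix.one_apply]
  simp only [ite_mul, mul_ite, mul_one, mul_zero, zero_mul, one_mul, Finset.sum_ite_eq,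
    Finset.sum_ite_eq', Finset.mem_univ, if_true]
  by_cases h : q = p
  · subst h; simp
  · simp [h]

theorem embT_emb {a m : ℕ} (p : Fin m) : (emb F a p)ᵀ * emb F a p = 1 := by
  ext x y
  rw [Matrix.mul_apply, Fintype.sum_prod_type]
  simp only [emb_apply, Matrix.transpose_apply, Matrix.one_apply]
  simp only [ite_mul, mul_ite, mul_one, mul_zero, zero_mul, one_mul, Finset.sum_ite_eq,
    Finset.sum_ite_eq', Finset.mem_univ, if_true]
  by_cases h : x = y
  · subst h; simp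
  · simp [h, Ne.symm h]

theorem embT_mul {a m : ℕ} (p : Fin m) (A : Matrix (Fin a) (Fin a) F) :
    A * (emb F a p)ᵀ = (emb F a p)ᵀ * (A ⊗ₖ (1 : Matrix (Fin m) (Fin m) F)) := by
  have h := congrArg Matrix.transpose (emb_mul F p Aᵀ)
  rw [Matrix.transpose_mul, Matrix.transpose_mul, Matrix.transpose_transpose,
    ← Matrix.kroneckerMap_transpose, Matrix.transpose_transpose, Matrix.transpose_one] at h
  exact h

theorem emb_embT {a m : ℕ} (p : Fin m) :
    emb F a p * (emb F a p)ᵀ =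
      (1 : Matrix (Fin a) (Fin a) F) ⊗ₖ Matrix.single p p (1 : F) := by
  ext x y
  obtain ⟨x, q⟩ := x
  obtain ⟨y, r⟩ := y
  rw [Matrix.mul_apply]
  simp only [emb_apply, Matrix.transpose_apply, Matrix.one_apply, Matrix.kroneckerMap_apply,
    Matrix.single_apply]
  by_cases h1 : x = y <;> by_cases h2 : q = p <;> by_cases h3 : r = p
  · subst h1; subst h2; subst h3; simp
  · subst h1; subst h2
    simp [h3, Ne.symm h3]
  · subst h1; subst h3
    simp [h2, Ne.symm h2]
  · subst h1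
    simp [h2, h3, Ne.symm h2]
  · subst h2; subst h3
    simp [h1]
  · simp [h1, h3, Ne.symm h3]
  · simp [h1, h2, Ne.symm h2]
  · simp [h1, h2, h3, Ne.symm h2]

theorem single_emb {a m : ℕ} (p : Fin m) :
    ((1 : Matrix (Fin a) (Fin a) F) ⊗ₖ Matrix.single p p (1 : F)) * emb F a p = emb F a p := by
  rw [← emb_embT, Matrix.mul_assoc, embT_emb, Matrix.mul_one]

theorem embT_single {a m : ℕ} (p : Fin m) :
    (emb F a p)ᵀ * ((1 : Matrix (Fin a) (Fin a) F) ⊗ₖ Matrix.single p p (1 : F)) =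
      (emb F a p)ᵀ := by
  rw [← emb_embT, ← Matrix.mul_assoc, embT_emb, Matrix.one_mul]

variable {F}

/-- cancellation of `⊗ 1` -/
theorem kron_one_inj {a b m : ℕ} (p : Fin m) {Y Y' : Matrix (Fin a) (Fin b) F}
    (h : Y ⊗ₖ (1 : Matrix (Fin m) (Fin m) F) = Y' ⊗ₖ (1 : Matrix (Fin m) (Fin m) F)) : Y = Y' := by
  ext x y
  have h1 := congrFun (congrFun h (x, p)) (y, p)
  simpa [Matrix.kroneckerMap_apply] using h1

theorem MIso.symm {Γ I J : Type*} [Fintype I] [Fintype J] [DecidableEq I] [DecidableEq J]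
    {a : Γ → Matrix I I F} {b : Γ → Matrix J J F} (h : MIso a b) : MIso b a := by
  obtain ⟨T, T', h1, h2, h3⟩ := h
  refine ⟨T', T, h2, h1, fun g => ?_⟩
  calc T' * b g = T' * b g * (T * T') := by rw [h1, Matrix.mul_one]
    _ = T' * (b g * T) * T' := by simp only [Matrix.mul_assoc]
    _ = T' * (T * a g) * T' := by rw [h3]
    _ = (T' * T) * a g * T' := by simp only [Matrix.mul_assoc]
    _ = a g * T' := by rw [h2, Matrix.one_mul]

theorem MIso.trans {Γ I J K : Type*} [Fintype I] [Fintype J] [DecidableEq I] [DecidableEq J]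
    [Fintype K] [DecidableEq K] {a : Γ → Matrix I I F} {b : Γ → Matrix J J F}
    {c : Γ → Matrix K K F} (h : MIso a b) (h' : MIso b c) : MIso a c := by
  obtain ⟨T, T', h1, h2, h3⟩ := h
  obtain ⟨S, S', k1, k2, k3⟩ := h'
  refine ⟨S * T, T' * S', ?_, ?_, fun g => ?_⟩
  · calc S * T * (T' * S') = S * (T * T') * S' := by simp only [Matrix.mul_assoc]
      _ = 1 := by rw [h1, Matrix.mul_one, k1]
  · calc T' * S' * (S * T) = T' * (S' * S) * T := by simp only [Matrix.mul_assoc]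
      _ = 1 := by rw [k2, Matrix.mul_one, h2]
  · rw [Matrix.mul_assoc, h3, ← Matrix.mul_assoc, k3, Matrix.mul_assoc]

theorem MIso.kron {Γ : Type*} {a b m : ℕ} {r : Γ → Matrix (Fin a) (Fin a) F}
    {r' : Γ → Matrix (Fin b) (Fin b) F} (h : MIso r r') (s : Γ → Matrix (Fin m) (Fin m) F) :
    MIso (fun g => r g ⊗ₖ s g) (fun g => r' g ⊗ₖ s g) := by
  obtain ⟨T, T', h1, h2, h3⟩ := h
  refine ⟨T ⊗ₖ (1 : Matrix (Fin m) (Fin m) F), T' ⊗ₖ (1 : Matrix (Fin m) (Fin m) F), ?_, ?_,
    fun g => ?_⟩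
  · rw [← Matrix.mul_kronecker_mul, h1, Matrix.mul_one, Matrix.one_kronecker_one]
  · rw [← Matrix.mul_kronecker_mul, h2, Matrix.mul_one, Matrix.one_kronecker_one]
  · rw [← Matrix.mul_kronecker_mul, ← Matrix.mul_kronecker_mul, h3, Matrix.mul_one,
      Matrix.one_mul]

end Pool.Agent.H41.TP
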