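import Pool.Agent.H41.TP.Mat

/-!
# The representation `ρ` from one auxiliary index

`R a` (`a : σ`), `Rj`, `s a`, `sj` are matrix representations of `Γ` with `R a ⊗ sj ≅ Rj ⊗ s a`;
`H` is a subgroup on which all `s a` are trivial, `sj` is absolutely irreducible on `H`, and every
`(R a h)_a`, `h ∈ H`, is a linear combination of the `(R a k)_a`, `k ∈ H`, `sj k = 1`. Then there is
`ρ` with `Rj ≅ ρ ⊗ sj` and `R a ≅ ρ ⊗ s a` for all `a`.
-/

set_option autoImplicit false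

open Matrix Kronecker

namespace Pool.Agent.H41.TP

variable {F : Type*} [Field F]

/-- splitting of idempotent matrices -/
theorem idem_split {N : ℕ} (P : Matrix (Fin N) (Fin N) F) (hP : P * P = P) :
    ∃ (n : ℕ) (B : Matrix (Fin N) (Fin n) F) (C : Matrix (Fin n) (Fin N) F),
      B * C = P ∧ C * B = 1 := by
  let p : (Fin N → F) →ₗ[F] (Fin N → F) := P.toLin'
  have hp : ∀ x, p (p x) = p x := by
    intro x
    change P.toLin' (P.toLin' x) = P.toLin' x
    rw [← Matrix.toLin'_mul_apply, hP]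
  let W := LinearMap.range p
  let b := Module.finBasis F W
  let q : (Fin N → F) →ₗ[F] W := p.rangeRestrict
  have hq : ∀ w : W, q w.1 = w := by
    rintro ⟨_, x, rfl⟩
    apply Subtype.ext
    exact hp x
  refine ⟨Module.finrank F W, LinearMap.toMatrix b (Pi.basisFun F (Fin N)) W.subtype,
    LinearMap.toMatrix (Pi.basisFun F (Fin N)) b q, ?_, ?_⟩
  · rw [← LinearMap.toMatrix_comp]
    have e : W.subtype ∘ₗ q = p := by
      ext x
      rfl
    rw [e]
    exact LinearMap.toMatrix'_toLin' P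
  · rw [← LinearMap.toMatrix_comp]
    have e : q ∘ₗ W.subtype = LinearMap.id := by
      apply LinearMap.ext
      intro w
      exact hq w
    rw [e, LinearMap.toMatrix_id]

section

variable {Γ σ : Type*} [Group Γ] {Nj mj : ℕ} (N m : σ → ℕ)
  (R : ∀ a, Γ →* Matrix (Fin (N a)) (Fin (N a)) F) (s : ∀ a, Γ →* Matrix (Fin (m a)) (Fin (m a)) F)
  (Rj : Γ →* Matrix (Fin Nj) (Fin Nj) F) (sj : Γ →* Matrix (Fin mj) (Fin mj) F)
  (T : ∀ a, Matrix (Fin Nj × Fin (m a)) (Fin (N a) × Fin mj) F)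
  (T' : ∀ a, Matrix (Fin (N a) × Fin mj) (Fin Nj × Fin (m a)) F)

/-- step 1: `T (1 ⊗ X) = (Y ⊗ 1) T` with the same `Y` for all `a` -/
theorem exists_Y (H : Subgroup Γ) (hs : ∀ a, ∀ h ∈ H, s a h = 1)
    (hT : ∀ a g, T a * (R a g ⊗ₖ sj g) = (Rj g ⊗ₖ s a g) * T a)
    (hR : ∀ h ∈ H, (fun a => R a h) ∈ Submodule.span F
      {x : ∀ a, Matrix (Fin (N a)) (Fin (N a)) F | ∃ k ∈ H, sj k = 1 ∧ x = fun a => R a k})
    (hirr : Submodule.span F {X | ∃ h ∈ H, X = sj h} = ⊤) (X : Matrix (Fin mj) (Fin mj) F) :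
    ∃ Y : Matrix (Fin Nj) (Fin Nj) F, ∀ a,
      T a * ((1 : Matrix (Fin (N a)) (Fin (N a)) F) ⊗ₖ X) =
        (Y ⊗ₖ (1 : Matrix (Fin (m a)) (Fin (m a)) F)) * T a := by
  have h1 : ∀ x ∈ Submodule.span F
      {x : ∀ a, Matrix (Fin (N a)) (Fin (N a)) F | ∃ k ∈ H, sj k = 1 ∧ x = fun a => R a k},
      ∃ Z : Matrix (Fin Nj) (Fin Nj) F, ∀ a,
        T a * (x a ⊗ₖ (1 : Matrix (Fin mj) (Fin mj) F)) =
          (Z ⊗ₖ (1 : Matrix (Fin (m a)) (Fin (m a)) F)) * T a := by
    intro x hx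
    induction hx using Submodule.span_induction with
    | mem x hx =>
      obtain ⟨k, hk, hk1, rfl⟩ := hx
      refine ⟨Rj k, fun a => ?_⟩
      have h := hT a k
      rw [hk1, hs a k hk] at h
      exact h
    | zero =>
      refine ⟨0, fun a => ?_⟩
      simp
    | add x y _ _ hx hy =>
      obtain ⟨Z, hZ⟩ := hx
      obtain ⟨Z', hZ'⟩ := hy
      refine ⟨Z + Z', fun a => ?_⟩
      rw [Pi.add_apply, Matrix.add_kronecker, Matrix.mul_add, hZ, hZ', Matrix.add_kronecker,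
        Matrix.add_mul]
    | smul c x _ hx =>
      obtain ⟨Z, hZ⟩ := hx
      refine ⟨c • Z, fun a => ?_⟩
      rw [Pi.smul_apply, Matrix.smul_kronecker, Matrix.mul_smul, hZ, Matrix.smul_kronecker,
        Matrix.smul_mul]
  have h2 : X ∈ Submodule.span F {X | ∃ h ∈ H, X = sj h} := by rw [hirr]; trivial
  induction h2 using Submodule.span_induction with
  | mem X hX =>
    obtain ⟨h, hh, rfl⟩ := hX
    obtain ⟨Z, hZ⟩ := h1 _ (hR h⁻¹ (H.inv_mem hh))
    refine ⟨Rj h * Z, fun a => ?_⟩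
    have e1 : (1 : Matrix (Fin (N a)) (Fin (N a)) F) ⊗ₖ sj h =
        (R a h ⊗ₖ sj h) * (R a h⁻¹ ⊗ₖ (1 : Matrix (Fin mj) (Fin mj) F)) := by
      rw [← Matrix.mul_kronecker_mul, ← map_mul, mul_inv_cancel, map_one, Matrix.mul_one]
    rw [e1, ← Matrix.mul_assoc, hT, Matrix.mul_assoc, hZ, ← Matrix.mul_assoc, hs a h hh,
      ← Matrix.mul_kronecker_mul, Matrix.mul_one]
  | zero =>
    refine ⟨0, fun a => ?_⟩
    simp
  | add x y _ _ hx hy =>
    obtain ⟨Z, hZ⟩ := hx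
    obtain ⟨Z', hZ'⟩ := hy
    refine ⟨Z + Z', fun a => ?_⟩
    rw [Matrix.kronecker_add, Matrix.mul_add, hZ, hZ', Matrix.add_kronecker, Matrix.add_mul]
  | smul c x _ hx =>
    obtain ⟨Z, hZ⟩ := hx
    refine ⟨c • Z, fun a => ?_⟩
    rw [Matrix.kronecker_smul, Matrix.mul_smul, hZ, Matrix.smul_kronecker, Matrix.smul_mul]

/-- step 2: the algebra homomorphism `Φ` -/
theorem exists_Phi (H : Subgroup Γ) (a0 : σ) (p0 : Fin (m a0)) (hs : ∀ a, ∀ h ∈ H, s a h = 1)
    (hTT' : ∀ a, T a * T' a = 1)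
    (hT : ∀ a g, T a * (R a g ⊗ₖ sj g) = (Rj g ⊗ₖ s a g) * T a)
    (hR : ∀ h ∈ H, (fun a => R a h) ∈ Submodule.span F
      {x : ∀ a, Matrix (Fin (N a)) (Fin (N a)) F | ∃ k ∈ H, sj k = 1 ∧ x = fun a => R a k})
    (hirr : Submodule.span F {X | ∃ h ∈ H, X = sj h} = ⊤) :
    ∃ Φ : Matrix (Fin mj) (Fin mj) F →ₐ[F] Matrix (Fin Nj) (Fin Nj) F, ∀ a X,
      T a * ((1 : Matrix (Fin (N a)) (Fin (N a)) F) ⊗ₖ X) =
        (Φ X ⊗ₖ (1 : Matrix (Fin (m a)) (Fin (m a)) F)) * T a := by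
  choose Y hY using exists_Y N m R s Rj sj T H hs hT hR hirr
  have huniq : ∀ A B : Matrix (Fin Nj) (Fin Nj) F,
      (A ⊗ₖ (1 : Matrix (Fin (m a0)) (Fin (m a0)) F)) * T a0 =
      (B ⊗ₖ (1 : Matrix (Fin (m a0)) (Fin (m a0)) F)) * T a0 → A = B := by
    intro A B h
    apply kron_one_inj p0
    have h2 := congrArg (· * T' a0) h
    simp only [Matrix.mul_assoc, hTT', Matrix.mul_one] at h2
    exact h2
  let L : Matrix (Fin mj) (Fin mj) F →ₗ[F] Matrix (Fin Nj) (Fin Nj) F :=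
    { toFun := Y
      map_add' := by
        intro A B
        apply huniq
        rw [← hY, Matrix.kronecker_add, Matrix.mul_add, hY, hY, Matrix.add_kronecker,
          Matrix.add_mul]
      map_smul' := by
        intro c A
        apply huniq
        rw [← hY, Matrix.kronecker_smul, Matrix.mul_smul, hY, RingHom.id_apply,
          Matrix.smul_kronecker, Matrix.smul_mul] }
  refine ⟨AlgHom.ofLinearMap L ?_ ?_, fun a X => hY X a⟩
  · apply huniq
    change (Y 1 ⊗ₖ (1 : Matrix (Fin (m a0)) (Fin (m a0)) F)) * T a0 = _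
    rw [← hY, Matrix.one_kronecker_one, Matrix.one_kronecker_one, Matrix.mul_one, Matrix.one_mul]
  · intro A B
    apply huniq
    change (Y (A * B) ⊗ₖ (1 : Matrix (Fin (m a0)) (Fin (m a0)) F)) * T a0 =
      ((Y A * Y B) ⊗ₖ (1 : Matrix (Fin (m a0)) (Fin (m a0)) F)) * T a0
    rw [← hY]
    have e1 : ((1 : Matrix (Fin (N a0)) (Fin (N a0)) F) ⊗ₖ (A * B)) =
        ((1 : Matrix (Fin (N a0)) (Fin (N a0)) F) ⊗ₖ A) *
          ((1 : Matrix (Fin (N a0)) (Fin (N a0)) F) ⊗ₖ B) := by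
      rw [← Matrix.mul_kronecker_mul, Matrix.mul_one]
    have e2 : ((Y A * Y B) ⊗ₖ (1 : Matrix (Fin (m a0)) (Fin (m a0)) F)) =
        (Y A ⊗ₖ (1 : Matrix (Fin (m a0)) (Fin (m a0)) F)) *
          (Y B ⊗ₖ (1 : Matrix (Fin (m a0)) (Fin (m a0)) F)) := by
      rw [← Matrix.mul_kronecker_mul, Matrix.mul_one]
    rw [e1, e2, ← Matrix.mul_assoc, hY, Matrix.mul_assoc, hY, ← Matrix.mul_assoc]

/-- step 3: conjugation -/
theorem Phi_conj (a0 : σ) (p0 : Fin (m a0)) (hTT' : ∀ a, T a * T' a = 1)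
    (hT : ∀ a g, T a * (R a g ⊗ₖ sj g) = (Rj g ⊗ₖ s a g) * T a)
    (Φ : Matrix (Fin mj) (Fin mj) F →ₐ[F] Matrix (Fin Nj) (Fin Nj) F)
    (hΦ : ∀ a X, T a * ((1 : Matrix (Fin (N a)) (Fin (N a)) F) ⊗ₖ X) =
        (Φ X ⊗ₖ (1 : Matrix (Fin (m a)) (Fin (m a)) F)) * T a) (g : Γ)
    (X X' : Matrix (Fin mj) (Fin mj) F) (hX : X' * sj g = sj g * X) :
    Rj g * Φ X = Φ X' * Rj g := by
  have h1 : ((Rj g * Φ X) ⊗ₖ s a0 g) * T a0 =
      T a0 * (R a0 g ⊗ₖ (sj g * X)) := by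
    calc ((Rj g * Φ X) ⊗ₖ s a0 g) * T a0
        = (Rj g ⊗ₖ s a0 g) * ((Φ X ⊗ₖ (1 : Matrix (Fin (m a0)) (Fin (m a0)) F)) * T a0) := by
          rw [← Matrix.mul_assoc, ← Matrix.mul_kronecker_mul, Matrix.mul_one]
      _ = ((Rj g ⊗ₖ s a0 g) * T a0) *
            ((1 : Matrix (Fin (N a0)) (Fin (N a0)) F) ⊗ₖ X) := by
          rw [← hΦ, Matrix.mul_assoc]
      _ = T a0 * (R a0 g ⊗ₖ (sj g * X)) := by
          rw [← hT, Matrix.mul_assoc, ← Matrix.mul_kronecker_mul, Matrix.mul_one]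
  have h2 : ((Φ X' * Rj g) ⊗ₖ s a0 g) * T a0 =
      T a0 * (R a0 g ⊗ₖ (sj g * X)) := by
    calc ((Φ X' * Rj g) ⊗ₖ s a0 g) * T a0
        = (Φ X' ⊗ₖ (1 : Matrix (Fin (m a0)) (Fin (m a0)) F)) *
            ((Rj g ⊗ₖ s a0 g) * T a0) := by
          rw [← Matrix.mul_assoc, ← Matrix.mul_kronecker_mul, Matrix.one_mul]
      _ = ((Φ X' ⊗ₖ (1 : Matrix (Fin (m a0)) (Fin (m a0)) F)) * T a0) *
            (R a0 g ⊗ₖ sj g) := by
          rw [← hT, Matrix.mul_assoc]
      _ = T a0 * (R a0 g ⊗ₖ (sj g * X)) := by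
          rw [← hΦ, Matrix.mul_assoc, ← Matrix.mul_kronecker_mul, Matrix.one_mul, hX]
  have h3 : (Rj g * Φ X) ⊗ₖ s a0 g = (Φ X' * Rj g) ⊗ₖ s a0 g := by
    have h4 := congrArg (· * T' a0) (h1.trans h2.symm)
    simp only [Matrix.mul_assoc, hTT', Matrix.mul_one] at h4
    simpa only [Matrix.mul_assoc] using h4
  apply kron_one_inj p0
  have h5 := congrArg (· * ((1 : Matrix (Fin Nj) (Fin Nj) F) ⊗ₖ s a0 g⁻¹)) h3
  simp only [← Matrix.mul_kronecker_mul, Matrix.mul_one, ← map_mul, mul_inv_cancel, map_one] at h5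
  exact h5

/-- **Construction of `ρ` from one auxiliary index.** -/
theorem pair_exists (H : Subgroup Γ) (a0 : σ) (hm : ∀ a, 0 < m a) (hmj : 0 < mj)
    (hs : ∀ a, ∀ h ∈ H, s a h = 1)
    (hiso : ∀ a, MIso (fun g => R a g ⊗ₖ sj g) (fun g => Rj g ⊗ₖ s a g))
    (hR : ∀ h ∈ H, (fun a => R a h) ∈ Submodule.span F
      {x : ∀ a, Matrix (Fin (N a)) (Fin (N a)) F | ∃ k ∈ H, sj k = 1 ∧ x = fun a => R a k})
    (hirr : Submodule.span F {X | ∃ h ∈ H, X = sj h} = ⊤) :
    ∃ (n : ℕ) (ρ : Γ →* Matrix (Fin n) (Fin n) F),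
      MIso (fun g => Rj g) (fun g => ρ g ⊗ₖ sj g) ∧
      ∀ a, MIso (fun g => R a g) (fun g => ρ g ⊗ₖ s a g) := by
  choose T T' hTT' hT'T hT using hiso
  obtain ⟨Φ, hΦ⟩ := exists_Phi N m R s Rj sj T T' H a0 ⟨0, hm a0⟩ hs hTT' hT hR hirr
  have hconj := Phi_conj N m R s Rj sj T T' a0 ⟨0, hm a0⟩ hTT' hT Φ hΦ
  -- the representation on the big space
  let ρt : Γ → Matrix (Fin Nj) (Fin Nj) F := fun g => Rj g * Φ (sj g⁻¹)
  have hinv : ∀ g, sj g * sj g⁻¹ = 1 := fun g => by rw [← map_mul, mul_inv_cancel, map_one]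
  have hinv' : ∀ g, sj g⁻¹ * sj g = 1 := fun g => by rw [← map_mul, inv_mul_cancel, map_one]
  have hcomm : ∀ g X, Φ X * ρt g = ρt g * Φ X := by
    intro g X
    change Φ X * (Rj g * Φ (sj g⁻¹)) = Rj g * Φ (sj g⁻¹) * Φ X
    have h := hconj g (sj g⁻¹ * X * sj g) X (by
      rw [← Matrix.mul_assoc, ← Matrix.mul_assoc, hinv, Matrix.one_mul])
    have e : sj g⁻¹ * X * sj g * sj g⁻¹ = sj g⁻¹ * X := by
      rw [Matrix.mul_assoc, hinv, Matrix.mul_one]
    calc Φ X * (Rj g * Φ (sj g⁻¹)) = Φ X * Rj g * Φ (sj g⁻¹) := by rw [← Matrix.mul_assoc]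
      _ = Rj g * (Φ (sj g⁻¹ * X * sj g) * Φ (sj g⁻¹)) := by rw [← h, Matrix.mul_assoc]
      _ = Rj g * Φ (sj g⁻¹) * Φ X := by rw [← map_mul Φ, e, map_mul, ← Matrix.mul_assoc]
  have hmul : ∀ g h, ρt (g * h) = ρt g * ρt h := by
    intro g h
    have e1 : ρt g * ρt h = Rj g * (Φ (sj g⁻¹) * ρt h) := by
      change Rj g * Φ (sj g⁻¹) * ρt h = _
      rw [Matrix.mul_assoc]
    rw [e1, hcomm]
    change Rj (g * h) * Φ (sj (g * h)⁻¹) = Rj g * (Rj h * Φ (sj h⁻¹) * Φ (sj g⁻¹))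
    rw [map_mul, _root_.mul_inv_rev, map_mul, map_mul]
    simp only [Matrix.mul_assoc]
  have hone : ρt 1 = 1 := by
    change Rj 1 * Φ (sj 1⁻¹) = 1
    rw [inv_one, map_one, map_one, map_one, Matrix.mul_one]
  have hTρ : ∀ a g, T a * (R a g ⊗ₖ (1 : Matrix (Fin mj) (Fin mj) F)) =
      (ρt g ⊗ₖ s a g) * T a := by
    intro a g
    have e1 : (R a g ⊗ₖ (1 : Matrix (Fin mj) (Fin mj) F)) = (R a g ⊗ₖ sj g) *
        ((1 : Matrix (Fin (N a)) (Fin (N a)) F) ⊗ₖ sj g⁻¹) := by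
      rw [← Matrix.mul_kronecker_mul, Matrix.mul_one, hinv]
    rw [e1, ← Matrix.mul_assoc, hT, Matrix.mul_assoc, hΦ, ← Matrix.mul_assoc,
      ← Matrix.mul_kronecker_mul, Matrix.mul_one]
  -- the idempotent
  let q0 : Fin mj := ⟨0, hmj⟩
  let E : Fin mj → Fin mj → Matrix (Fin mj) (Fin mj) F := fun p q => Matrix.single p q (1 : F)
  have hE : ∀ p q r, E p q * E q r = E p r := fun p q r => by
    simp [E]
  have hE' : ∀ p q q' r, q ≠ q' → E p q * E q' r = 0 := fun p q q' r h => by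
    simp [E, h]
  obtain ⟨n, B, C, hBC, hCB⟩ := idem_split (Φ (E q0 q0)) (by rw [← map_mul, hE])
  have hCe : C * Φ (E q0 q0) = C := by
    rw [← hBC, ← Matrix.mul_assoc, hCB, Matrix.one_mul]
  have heB : Φ (E q0 q0) * B = B := by
    rw [← hBC, Matrix.mul_assoc, hCB, Matrix.mul_one]
  let ρ : Γ →* Matrix (Fin n) (Fin n) F :=
    { toFun := fun g => C * ρt g * B
      map_one' := by rw [hone, Matrix.mul_one, hCB]
      map_mul' := by
        intro g h
        calc C * ρt (g * h) * B = C * (ρt g * ρt h) * (Φ (E q0 q0) * B) := by rw [hmul, heB]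
          _ = C * ρt g * (ρt h * Φ (E q0 q0)) * B := by simp only [Matrix.mul_assoc]
          _ = C * ρt g * (Φ (E q0 q0) * ρt h) * B := by rw [hcomm]
          _ = C * ρt g * B * (C * ρt h * B) := by rw [← hBC]; simp only [Matrix.mul_assoc] }
  refine ⟨n, ρ, ?_, ?_⟩
  · let U : Matrix (Fin Nj) (Fin n × Fin mj) F := Matrix.of fun v x => (Φ (E x.2 q0) * B) v x.1
    let U' : Matrix (Fin n × Fin mj) (Fin Nj) F := Matrix.of fun x v => (C * Φ (E q0 x.2)) x.1 v
    refine MIso.symm ⟨U, U', ?_, ?_, ?_⟩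
    · have hE1 : ∑ p, E p p = 1 := by
        ext x y
        rw [Matrix.sum_apply, Matrix.one_apply]
        by_cases h : x = y
        · subst h
          simp [E, Matrix.single_apply]
        · rw [if_neg h]
          apply Finset.sum_eq_zero
          intro p _
          simp only [E, Matrix.single_apply]
          rw [if_neg]
          rintro ⟨rfl, rfl⟩
          exact h rfl
      ext v w
      rw [Matrix.mul_apply, Fintype.sum_prod_type, Finset.sum_comm]
      have e1 : ∀ p, ∑ i, U v (i, p) * U' (i, p) w = Φ (E p p) v w := by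
        intro p
        have e2 : (Φ (E p q0) * B) * (C * Φ (E q0 p)) = Φ (E p p) := by
          calc (Φ (E p q0) * B) * (C * Φ (E q0 p))
              = Φ (E p q0) * (B * C) * Φ (E q0 p) := by simp only [Matrix.mul_assoc]
            _ = Φ (E p p) := by rw [hBC, ← map_mul, ← map_mul, hE, hE]
        rw [← e2, Matrix.mul_apply]
        rfl
      rw [Finset.sum_congr rfl fun p _ => e1 p, ← Matrix.sum_apply, ← map_sum, hE1, map_one]
    · ext x y
      obtain ⟨i, p⟩ := x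
      obtain ⟨j, q⟩ := y
      have e1 : (U' * U) (i, p) (j, q) = ((C * Φ (E q0 p)) * (Φ (E q q0) * B)) i j := by
        rw [Matrix.mul_apply, Matrix.mul_apply]
        rfl
      have e2 : (C * Φ (E q0 p)) * (Φ (E q q0) * B) = C * Φ (E q0 p * E q q0) * B := by
        rw [map_mul]
        simp only [Matrix.mul_assoc]
      rw [e1, e2, Matrix.one_apply]
      by_cases h : p = q
      · subst h
        rw [hE, hCe, hCB, Matrix.one_apply]
        by_cases h2 : i = j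
        · subst h2; simp
        · simp [h2]
      · rw [hE' _ _ _ _ h, map_zero, Matrix.mul_zero, Matrix.zero_mul]
        simp [h]
    · intro g
      have h1 : Φ (sj g) * ρt g = Rj g := by
        rw [hcomm]
        change Rj g * Φ (sj g⁻¹) * Φ (sj g) = Rj g
        rw [Matrix.mul_assoc, ← map_mul, hinv', map_one, Matrix.mul_one]
      ext v y
      obtain ⟨j, q⟩ := y
      have e0 : ∀ p, (Φ (E p q0) * B) * (C * ρt g * B) = Φ (E p q0) * ρt g * B := by
        intro p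
        calc (Φ (E p q0) * B) * (C * ρt g * B)
            = Φ (E p q0) * (B * C) * ρt g * B := by simp only [Matrix.mul_assoc]
          _ = Φ (E p q0) * ρt g * B := by rw [hBC, ← map_mul, hE]
      have e1 : (U * (ρ g ⊗ₖ sj g)) v (j, q) =
          ∑ p, sj g p q * (Φ (E p q0) * ρt g * B) v j := by
        rw [Matrix.mul_apply, Fintype.sum_prod_type, Finset.sum_comm]
        apply Finset.sum_congr rfl
        intro p _
        rw [← e0, Matrix.mul_apply, Finset.mul_sum]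
        apply Finset.sum_congr rfl
        intro i _
        change (Φ (E p q0) * B) v i * ((C * ρt g * B) i j * sj g p q) = _
        ring
      have e2 : ∑ p, sj g p q * (Φ (E p q0) * ρt g * B) v j =
          (Φ (sj g * E q q0) * ρt g * B) v j := by
        have e3 : sj g * E q q0 = ∑ p, sj g p q • E p q0 := by
          ext x y
          rw [Matrix.sum_apply, Matrix.mul_apply]
          simp only [E, Matrix.smul_apply, Matrix.single_apply, smul_eq_mul]
          by_cases hy : y = q0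
          · subst hy
            simp
          · simp [Ne.symm hy]
        rw [e3, map_sum, Matrix.sum_mul, Matrix.sum_mul, Matrix.sum_apply]
        apply Finset.sum_congr rfl
        intro p _
        rw [map_smul, Matrix.smul_mul, Matrix.smul_mul, Matrix.smul_apply, smul_eq_mul]
      have e4 : Φ (sj g * E q q0) * ρt g * B = Rj g * (Φ (E q q0) * B) := by
        calc Φ (sj g * E q q0) * ρt g * B = Φ (sj g) * (Φ (E q q0) * ρt g) * B := by
              rw [map_mul]; simp only [Matrix.mul_assoc]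
          _ = Φ (sj g) * ρt g * (Φ (E q q0) * B) := by
              rw [hcomm]; simp only [Matrix.mul_assoc]
          _ = Rj g * (Φ (E q q0) * B) := by rw [h1]
      rw [e1, e2, e4, Matrix.mul_apply, Matrix.mul_apply]
      rfl
  · intro a
    refine ⟨(C ⊗ₖ (1 : Matrix (Fin (m a)) (Fin (m a)) F)) * T a * emb F (N a) q0,
      (emb F (N a) q0)ᵀ * T' a * (B ⊗ₖ (1 : Matrix (Fin (m a)) (Fin (m a)) F)), ?_, ?_, ?_⟩
    · calc (C ⊗ₖ (1 : Matrix (Fin (m a)) (Fin (m a)) F)) * T a * emb F (N a) q0 *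
            ((emb F (N a) q0)ᵀ * T' a * (B ⊗ₖ (1 : Matrix (Fin (m a)) (Fin (m a)) F)))
          = (C ⊗ₖ (1 : Matrix (Fin (m a)) (Fin (m a)) F)) *
              (T a * (emb F (N a) q0 * (emb F (N a) q0)ᵀ)) * T' a *
              (B ⊗ₖ (1 : Matrix (Fin (m a)) (Fin (m a)) F)) := by
            simp only [Matrix.mul_assoc]
        _ = (C ⊗ₖ (1 : Matrix (Fin (m a)) (Fin (m a)) F)) *
              (Φ (E q0 q0) ⊗ₖ (1 : Matrix (Fin (m a)) (Fin (m a)) F)) * (T a * T' a) *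
              (B ⊗ₖ (1 : Matrix (Fin (m a)) (Fin (m a)) F)) := by
            rw [emb_embT, hΦ]
            simp only [Matrix.mul_assoc]
            rfl
        _ = 1 := by
            rw [hTT', Matrix.mul_one, ← Matrix.mul_kronecker_mul, ← Matrix.mul_kronecker_mul, hCe,
              hCB, Matrix.mul_one, Matrix.mul_one, Matrix.one_kronecker_one]
    · calc (emb F (N a) q0)ᵀ * T' a * (B ⊗ₖ (1 : Matrix (Fin (m a)) (Fin (m a)) F)) *
            ((C ⊗ₖ (1 : Matrix (Fin (m a)) (Fin (m a)) F)) * T a * emb F (N a) q0)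
          = (emb F (N a) q0)ᵀ * T' a * ((B ⊗ₖ (1 : Matrix (Fin (m a)) (Fin (m a)) F)) *
              (C ⊗ₖ (1 : Matrix (Fin (m a)) (Fin (m a)) F)) * T a) * emb F (N a) q0 := by
            simp only [Matrix.mul_assoc]
        _ = (emb F (N a) q0)ᵀ * T' a * (T a *
              ((1 : Matrix (Fin (N a)) (Fin (N a)) F) ⊗ₖ E q0 q0)) * emb F (N a) q0 := by
            rw [← Matrix.mul_kronecker_mul, hBC, Matrix.mul_one, hΦ]
        _ = (emb F (N a) q0)ᵀ * (T' a * T a) *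
              (((1 : Matrix (Fin (N a)) (Fin (N a)) F) ⊗ₖ E q0 q0) * emb F (N a) q0) := by
            simp only [Matrix.mul_assoc]
        _ = 1 := by
            rw [hT'T, Matrix.mul_one, single_emb, embT_emb]
    · intro g
      calc (C ⊗ₖ (1 : Matrix (Fin (m a)) (Fin (m a)) F)) * T a * emb F (N a) q0 * R a g
          = (C ⊗ₖ (1 : Matrix (Fin (m a)) (Fin (m a)) F)) *
              (T a * (R a g ⊗ₖ (1 : Matrix (Fin mj) (Fin mj) F))) * emb F (N a) q0 := by
            rw [Matrix.mul_assoc, emb_mul]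
            simp only [Matrix.mul_assoc]
        _ = ((C * ρt g) ⊗ₖ s a g) * T a * emb F (N a) q0 := by
            rw [hTρ, ← Matrix.mul_assoc, ← Matrix.mul_kronecker_mul, Matrix.one_mul]
        _ = ((C * ρt g * B * C) ⊗ₖ s a g) * T a * emb F (N a) q0 := by
            have e : C * ρt g * B * C = C * ρt g := by
              calc C * ρt g * B * C = C * (ρt g * Φ (E q0 q0)) := by
                    rw [← hBC]; simp only [Matrix.mul_assoc]
                _ = C * (Φ (E q0 q0) * ρt g) := by rw [hcomm]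
                _ = C * ρt g := by rw [← Matrix.mul_assoc, hCe]
            rw [e]
        _ = ((C * ρt g * B) ⊗ₖ s a g) *
              ((C ⊗ₖ (1 : Matrix (Fin (m a)) (Fin (m a)) F)) * T a * emb F (N a) q0) := by
            have e : ((C * ρt g * B * C) ⊗ₖ s a g) = ((C * ρt g * B) ⊗ₖ s a g) *
                (C ⊗ₖ (1 : Matrix (Fin (m a)) (Fin (m a)) F)) := by
              rw [← Matrix.mul_kronecker_mul, Matrix.mul_one]
            rw [e]
            simp only [Matrix.mul_assoc]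

end

end Pool.Agent.H41.TP
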